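import Pool.Agent.Y398.KZ.Stm

/-!
# Project KZ (helper398): number of downward switches (S_DEGDN)
-/

set_option autoImplicit false

namespace Pool.Agent.Y405.KZ

open Pool.Agent.Y398.KZ

/-- Counting by fibres: if the values of an integer function on a set are at mutual distance at
most `K` and all fibres have at most `k` elements then the set has at most `k (2K+1)` elements. -/
theorem cnt {α : Type} (S : Set α) (f : α → ℤ) (K k : ℕ)
    (h1 : ∀ x ∈ S, ∀ y ∈ S, |f x - f y| ≤ (K : ℤ))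
    (h2 : ∀ c, {x | x ∈ S ∧ f x = c}.Finite ∧ {x | x ∈ S ∧ f x = c}.ncard ≤ k) :
    S.Finite ∧ S.ncard ≤ k * (2 * K + 1) := by
  classical
  rcases S.eq_empty_or_nonempty with h | ⟨x0, hx0⟩
  · subst h
    exact ⟨Set.finite_empty, by simp⟩
  · have hmem : ∀ x ∈ S, f x ∈ Finset.Icc (f x0 - K) (f x0 + K) := by
      intro x hx
      have := abs_le.1 (h1 x hx x0 hx0)
      rw [Finset.mem_Icc]
      constructor <;> linarith [this.1, this.2]
    have hfin : S.Finite := by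
      refine Set.Finite.subset ((Finset.Icc (f x0 - (K : ℤ)) (f x0 + K)).finite_toSet.biUnion
        (t := fun c => {x | x ∈ S ∧ f x = c}) fun c _ => (h2 c).1) ?_
      intro x hx
      rw [Set.mem_iUnion₂]
      exact ⟨f x, hmem x hx, hx, rfl⟩
    refine ⟨hfin, ?_⟩
    rw [Set.ncard_eq_toFinset_card S hfin]
    have hcard : (Finset.Icc (f x0 - (K : ℤ)) (f x0 + K)).card = 2 * K + 1 := by
      rw [Int.card_Icc]
      omega
    rw [← hcard]
    refine Finset.card_le_mul_card_image_of_maps_to (f := f) ?_ k ?_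
    · intro x hx
      exact hmem x (by simpa using hx)
    · intro c _
      refine le_trans (le_of_eq ?_) (h2 c).2
      rw [Set.ncard_eq_toFinset_card _ (h2 c).1]
      congr 1
      ext x
      simp

/-- Counting with an injective function. -/
theorem cnt_inj {α : Type} (S : Set α) (f : α → ℤ) (K : ℕ)
    (h1 : ∀ x ∈ S, ∀ y ∈ S, |f x - f y| ≤ (K : ℤ)) (h2 : ∀ x ∈ S, ∀ y ∈ S, f x = f y → x = y) :
    S.Finite ∧ S.ncard ≤ 2 * K + 1 := by
  have h := cnt S f K 1 h1 ?_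
  · exact ⟨h.1, by simpa using h.2⟩
  · intro c
    have hs : {x | x ∈ S ∧ f x = c}.Subsingleton := by
      intro x hx y hy
      exact h2 x hx.1 y hy.1 (hx.2.trans hy.2.symm)
    have := hs.finite.to_subtype
    exact ⟨hs.finite, Set.ncard_le_one_iff_subsingleton.2 hs⟩

theorem cnt_union {α : Type} (S T U : Set α) (k l : ℕ) (h : S ⊆ T ∪ U)
    (hT : T.Finite ∧ T.ncard ≤ k) (hU : U.Finite ∧ U.ncard ≤ l) : S.Finite ∧ S.ncard ≤ k + l := by
  refine ⟨(hT.1.union hU.1).subset h, ?_⟩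
  refine (Set.ncard_le_ncard h (hT.1.union hU.1)).trans ?_
  refine (Set.ncard_union_le _ _).trans ?_
  exact add_le_add hT.2 hU.2

/-- Slope indices of roads whose slopes are near a given one. -/
theorem slope_near {j : ℕ} {a a' : ℤ} {m r : ℝ} (h : |m - sl j a| ≤ r) (h' : |m - sl j a'| ≤ r) :
    |(a : ℝ) - a'| ≤ 2 * r * (q j : ℝ) := by
  have hq := q_pos j
  unfold sl at h h'
  have e : (a : ℝ) - a' = ((m - (a' : ℝ) / (q j : ℝ)) - (m - (a : ℝ) / (q j : ℝ))) * (q j : ℝ) := by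
    field_simp
    ring
  rw [e, abs_mul, abs_of_pos hq]
  refine mul_le_mul_of_nonneg_right ?_ hq.le
  refine (abs_sub _ _).trans ?_
  linarith

theorem eight_le_w {j : ℕ} (h : 1 ≤ j) : (8 : ℝ) ≤ (w j : ℝ) := by
  rw [w_cast]
  calc (8 : ℝ) = 8 ^ 1 := by norm_num
    _ ≤ 8 ^ j := pow_le_pow_right₀ (by norm_num) h

/-- Integers are equal if their multiples by `W ≥ 8` are at distance less than `8`. -/
theorem int_eq {W : ℝ} (hW : 8 ≤ W) {b b' : ℤ} (h : |((b : ℝ) - b') * W| < 8) : b = b' := by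
  by_contra hne
  have h1 : (1 : ℝ) ≤ |(b : ℝ) - b'| := by
    have : 1 ≤ |b - b'| := Int.one_le_abs (sub_ne_zero.2 hne)
    exact_mod_cast this
  rw [abs_mul, abs_of_nonneg (by linarith : 0 ≤ W)] at h
  nlinarith

/-- The switches down from `v` with one of the two choices. -/
def SetD (t : ℕ → ℤ → ℤ) (v : Rd) (σ lo : ℝ) : Set Rd :=
  {v' | v'.Ok ∧ v.h = v'.h ∧ v.j = v'.j + 1 ∧ |sl v.j v.a - sl v'.j v'.a| ≤ 2 * B v'.j ∧
    gap t v' v ≤ 2 * B v'.j ∧ lo ≤ v'.x * rt (sl v.j v.a) - σ * gap t v' v ∧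
    v'.x * rt (sl v.j v.a) - σ * gap t v' v ≤ lo + 1 / (N v.j : ℝ)}

theorem setD_b {t : ℕ → ℤ → ℤ} {v : Rd} {σ lo : ℝ} (hσ : |σ| ≤ 1) {x y : Rd}
    (hx : x ∈ SetD t v σ lo) (hy : y ∈ SetD t v σ lo) (hj : x.j = y.j) (ha : x.a = y.a) :
    x.b = y.b := by
  obtain ⟨hx0, hx1, hx2, hx3, hx4, hx5, hx6⟩ := hx
  obtain ⟨hy0, hy1, hy2, hy3, hy4, hy5, hy6⟩ := hy
  have hB : B x.j ≤ 1 / 4 := B_le _ hx0.1
  have hBy : B y.j ≤ 1 / 4 := B_le _ hy0.1
  have hR := one_le_rt (sl v.j v.a)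
  have hN : (1 : ℝ) / (N v.j : ℝ) ≤ 1 / 9 := by
    rw [N_cast, hx2]
    have h1 : (1 : ℝ) ≤ x.j := by exact_mod_cast hx0.1
    push_cast
    rw [div_le_div_iff₀ (by positivity) (by norm_num)]
    nlinarith
  have gx0 : 0 ≤ gap t x v := abs_nonneg _
  have gy0 : 0 ≤ gap t y v := abs_nonneg _
  have hσ' := abs_le.1 hσ
  have hg : |σ * (gap t x v - gap t y v)| ≤ 1 / 2 := by
    rw [abs_mul]
    have h1 : |gap t x v - gap t y v| ≤ 1 / 2 := by
      rw [abs_le]; constructor <;> linarith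
    have h2 : |σ| * |gap t x v - gap t y v| ≤ 1 * (1 / 2) :=
      mul_le_mul hσ h1 (abs_nonneg _) zero_le_one
    linarith
  have hxy : |(x.x - y.x) * rt (sl v.j v.a)| ≤ 1 := by
    have e : (x.x - y.x) * rt (sl v.j v.a) =
        ((x.x * rt (sl v.j v.a) - σ * gap t x v) - (y.x * rt (sl v.j v.a) - σ * gap t y v)) +
        σ * (gap t x v - gap t y v) := by ring
    rw [e]
    refine (abs_add_le _ _).trans ?_
    have : |(x.x * rt (sl v.j v.a) - σ * gap t x v) - (y.x * rt (sl v.j v.a) - σ * gap t y v)| ≤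
        1 / 9 := by
      rw [abs_le]; constructor <;> linarith
    linarith
  have hxy' : |x.x - y.x| ≤ 1 := by
    rw [abs_mul, abs_of_pos (rt_pos _)] at hxy
    have := abs_nonneg (x.x - y.x)
    nlinarith
  have hm : |sl v.j v.a - sl y.j y.a| ≤ 1 / 2 := by linarith
  apply int_eq (eight_le_w hy0.1)
  unfold gap at hx4 hy4
  rw [hj, ha] at hx4
  have e : ((x.b : ℝ) - y.b) * (w y.j : ℝ) =
      (sl v.j v.a - sl y.j y.a) * (x.x - y.x) -
      ((sl v.j v.a * x.x + ic t v.j v.a v.b) - (sl y.j y.a * x.x + ic t y.j y.a x.b)) +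
      ((sl v.j v.a * y.x + ic t v.j v.a v.b) - (sl y.j y.a * y.x + ic t y.j y.a y.b)) := by
    unfold ic
    ring
  rw [e]
  have h1 : |(sl v.j v.a - sl y.j y.a) * (x.x - y.x)| ≤ 1 / 2 * 1 := by
    rw [abs_mul]
    exact mul_le_mul hm hxy' (abs_nonneg _) (by norm_num)
  have h2 := abs_le.1 h1
  have h3 := abs_le.1 hx4
  have h4 := abs_le.1 hy4
  rw [abs_lt]
  constructor <;> linarith [h2.1, h2.2, h3.1, h3.2, h4.1, h4.2]

theorem setD_i {t : ℕ → ℤ → ℤ} {v : Rd} {σ lo : ℝ} (hσ : |σ| ≤ 1) {x y : Rd}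
    (hx : x ∈ SetD t v σ lo) (hy : y ∈ SetD t v σ lo) (hj : x.j = y.j) (ha : x.a = y.a) :
    |x.i - y.i| ≤ ((4 : ℕ) : ℤ) := by
  have hb := setD_b hσ hx hy hj ha
  obtain ⟨hx0, hx1, hx2, hx3, hx4, hx5, hx6⟩ := hx
  obtain ⟨hy0, hy1, hy2, hy3, hy4, hy5, hy6⟩ := hy
  have hBy : B y.j ≤ 1 / 4 := B_le _ hy0.1
  have hR := one_le_rt (sl v.j v.a)
  have hm : |sl v.j v.a - sl y.j y.a| ≤ 1 / 2 := by linarith
  have hN0 := N_pos v.j
  have hNy := N_pos y.j
  -- the gaps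
  have hg : |gap t x v - gap t y v| ≤ 1 / 2 * |x.x - y.x| := by
    unfold gap
    rw [hj, ha, hb]
    refine (abs_abs_sub_abs_le_abs_sub _ _).trans ?_
    have e : sl v.j v.a * x.x + ic t v.j v.a v.b - (sl y.j y.a * x.x + ic t y.j y.a y.b) -
        (sl v.j v.a * y.x + ic t v.j v.a v.b - (sl y.j y.a * y.x + ic t y.j y.a y.b)) =
        (sl v.j v.a - sl y.j y.a) * (x.x - y.x) := by ring
    rw [e, abs_mul]
    exact mul_le_mul_of_nonneg_right hm (abs_nonneg _)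
  have hg' : |σ * (gap t x v - gap t y v)| ≤ 1 / 2 * |x.x - y.x| := by
    rw [abs_mul]
    have h2 : |σ| * |gap t x v - gap t y v| ≤ 1 * (1 / 2 * |x.x - y.x|) :=
      mul_le_mul hσ hg (abs_nonneg _) zero_le_one
    linarith
  have hxy : |x.x - y.x| * rt (sl v.j v.a) ≤ 1 / (N v.j : ℝ) + 1 / 2 * |x.x - y.x| := by
    have e : (x.x - y.x) * rt (sl v.j v.a) =
        ((x.x * rt (sl v.j v.a) - σ * gap t x v) - (y.x * rt (sl v.j v.a) - σ * gap t y v)) +
        σ * (gap t x v - gap t y v) := by ring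
    have h1 : |(x.x - y.x) * rt (sl v.j v.a)| ≤ 1 / (N v.j : ℝ) + 1 / 2 * |x.x - y.x| := by
      rw [e]
      refine (abs_add_le _ _).trans ?_
      have : |(x.x * rt (sl v.j v.a) - σ * gap t x v) -
          (y.x * rt (sl v.j v.a) - σ * gap t y v)| ≤ 1 / (N v.j : ℝ) := by
        rw [abs_le]; constructor <;> linarith
      linarith
    rwa [abs_mul, abs_of_pos (rt_pos _)] at h1
  have hxy' : |x.x - y.x| ≤ 2 * (1 / (N v.j : ℝ)) := by
    have := abs_nonneg (x.x - y.x)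
    nlinarith
  -- back to the indices
  have hRy : rt (sl y.j y.a) ≤ 9 / 4 := rt_le _ (sl_le _ _ hy0.2)
  have hRy0 := rt_pos (sl y.j y.a)
  have hi : ((x.i : ℝ) - y.i) = (x.x - y.x) * (rt (sl y.j y.a) * (N y.j : ℝ)) := by
    unfold Rd.x
    rw [hj, ha]
    field_simp
  have hNN : (N y.j : ℝ) ≤ (N v.j : ℝ) := by
    rw [N_cast, N_cast, hy2]
    push_cast
    have : (0 : ℝ) ≤ y.j := Nat.cast_nonneg _
    nlinarith
  have hfin : |(x.i : ℝ) - y.i| < 5 := by
    rw [hi, abs_mul, abs_of_pos (by positivity : 0 < rt (sl y.j y.a) * (N y.j : ℝ))]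
    calc |x.x - y.x| * (rt (sl y.j y.a) * (N y.j : ℝ)) ≤
        (2 * (1 / (N v.j : ℝ))) * (9 / 4 * (N v.j : ℝ)) := by
          refine mul_le_mul hxy' (mul_le_mul hRy hNN hNy.le (by norm_num)) (by positivity)
            (by positivity)
      _ = 9 / 2 := by field_simp; norm_num
      _ < 5 := by norm_num
  have hfin' : |x.i - y.i| < 5 := by exact_mod_cast hfin
  push_cast
  omega

theorem setD_card {t : ℕ → ℤ → ℤ} {v : Rd} {σ lo : ℝ} (hσ : |σ| ≤ 1) :
    (SetD t v σ lo).Finite ∧ (SetD t v σ lo).ncard ≤ 9 * (2 * 1024 + 1) := by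
  have hjj : ∀ x ∈ SetD t v σ lo, ∀ y ∈ SetD t v σ lo, x.j = y.j := by
    intro x hx y hy
    have h1 := hx.2.2.1
    have h2 := hy.2.2.1
    omega
  refine cnt _ (fun x => x.a) 1024 9 ?_ ?_
  · intro x hx y hy
    have hj := hjj x hx y hy
    have h1 := hx.2.2.2.1
    have h2 := hy.2.2.2.1
    rw [hj] at h1
    have h3 := slope_near h1 h2
    have h4 : 2 * (2 * B y.j) * (q y.j : ℝ) = 1024 := by
      have := B_mul_q y.j
      linarith
    rw [h4] at h3
    have h5 : |x.a - y.a| ≤ 1024 := by exact_mod_cast h3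
    simpa using h5
  · intro c
    have h := cnt_inj {x | x ∈ SetD t v σ lo ∧ x.a = c} (fun x => x.i) 4 ?_ ?_
    · exact ⟨h.1, by simpa using h.2⟩
    · intro x hx y hy
      exact setD_i hσ hx.1 hy.1 (hjj x hx.1 y hy.1) (hx.2.trans hy.2.symm)
    · intro x hx y hy hi
      have hj := hjj x hx.1 y hy.1
      have ha := hx.2.trans hy.2.symm
      have hb := setD_b hσ hx.1 hy.1 hj ha
      have hh : x.h = y.h := hx.1.2.1.symm.trans hy.1.2.1
      cases x
      cases y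
      simp only at hh hj ha hb hi
      subst hh hj ha hb hi
      rfl

theorem t_DEGDN : S_DEGDN := by
  refine ⟨9 * (2 * 1024 + 1) + 9 * (2 * 1024 + 1), ?_⟩
  intro t v hv
  have hN0 := N_pos v.j
  refine cnt_union _ (SetD t v 1 ((v.i : ℝ) / (N v.j : ℝ) - 1))
    (SetD t v (-1) ((v.i : ℝ) / (N v.j : ℝ) + 1 - 1 / (N v.j : ℝ))) _ _ ?_
    (setD_card (by norm_num)) (setD_card (by norm_num))
  rintro v' ⟨hv', h1, h2, h3, h4, h5 | h5⟩
  · left
    refine ⟨hv', h1, h2, h3, h4, ?_, ?_⟩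
    · have h6 : (v.i : ℝ) ≤ (N v.j : ℝ) * (v'.x * rt (sl v.j v.a) + 1 - gap t v' v) := by
        rw [h5]
        exact Int.floor_le _
      have h7 : (v.i : ℝ) / (N v.j : ℝ) ≤ v'.x * rt (sl v.j v.a) + 1 - gap t v' v := by
        rw [div_le_iff₀ hN0]
        linarith
      linarith
    · have h6 : (N v.j : ℝ) * (v'.x * rt (sl v.j v.a) + 1 - gap t v' v) < (v.i : ℝ) + 1 := by
        rw [h5]
        exact Int.lt_floor_add_one _
      have h7 : v'.x * rt (sl v.j v.a) + 1 - gap t v' v ≤ (v.i : ℝ) / (N v.j : ℝ) +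
          1 / (N v.j : ℝ) := by
        rw [← add_div, le_div_iff₀ hN0]
        linarith
      linarith
  · right
    refine ⟨hv', h1, h2, h3, h4, ?_, ?_⟩
    · have h6 : (v.i : ℝ) - 1 < (N v.j : ℝ) * (v'.x * rt (sl v.j v.a) - 1 + gap t v' v) := by
        have := Int.ceil_lt_add_one ((N v.j : ℝ) * (v'.x * rt (sl v.j v.a) - 1 + gap t v' v))
        rw [← h5] at this
        linarith
      have h7 : (v.i : ℝ) / (N v.j : ℝ) - 1 / (N v.j : ℝ) ≤
          v'.x * rt (sl v.j v.a) - 1 + gap t v' v := by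
        rw [← sub_div, div_le_iff₀ hN0]
        linarith
      linarith
    · have h6 : (N v.j : ℝ) * (v'.x * rt (sl v.j v.a) - 1 + gap t v' v) ≤ (v.i : ℝ) := by
        rw [h5]
        exact Int.le_ceil _
      have h7 : v'.x * rt (sl v.j v.a) - 1 + gap t v' v ≤ (v.i : ℝ) / (N v.j : ℝ) := by
        rw [le_div_iff₀ hN0]
        linarith
      linarith

end Pool.Agent.Y405.KZ
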