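import Pool.Agent.Y405.KZ.DEGDN

/-!
# Project KZ (helper398): number of upward switches and of all neighbours (S_DEGUP, S_DEG)
-/

set_option autoImplicit false

namespace Pool.Agent.Y405.KZ

open Pool.Agent.Y398.KZ

/-- The roads for a switch up from `v`, without the choice of the point. -/
def PreU (t : ℕ → ℤ → ℤ) (v v' : Rd) : Prop :=
  v'.h = v.h ∧ v'.j = v.j + 1 ∧ |sl v'.j v'.a - sl v.j v.a| ≤ 2 * B v.j ∧ gap t v v' ≤ 2 * B v.j

theorem preU_b {t : ℕ → ℤ → ℤ} {v : Rd} (hv : v.Ok) {x y : Rd} (hx : PreU t v x)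
    (hy : PreU t v y) (ha : x.a = y.a) : x.b = y.b := by
  obtain ⟨hx1, hx2, hx3, hx4⟩ := hx
  obtain ⟨hy1, hy2, hy3, hy4⟩ := hy
  have hj : x.j = y.j := by omega
  have hB : B v.j ≤ 1 / 4 := B_le _ hv.1
  apply int_eq (eight_le_w (j := y.j) (by omega))
  unfold gap at hx4 hy4
  rw [hj, ha] at hx4
  have e : ((x.b : ℝ) - y.b) * (w y.j : ℝ) =
      ((sl y.j y.a * v.x + ic t y.j y.a x.b) - (sl v.j v.a * v.x + ic t v.j v.a v.b)) -
      ((sl y.j y.a * v.x + ic t y.j y.a y.b) - (sl v.j v.a * v.x + ic t v.j v.a v.b)) := by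
    unfold ic
    ring
  rw [e]
  have h3 := abs_le.1 hx4
  have h4 := abs_le.1 hy4
  rw [abs_lt]
  constructor <;> linarith [h3.1, h3.2, h4.1, h4.2]

theorem preU_a {t : ℕ → ℤ → ℤ} {v : Rd} (hv : v.Ok) {x y : Rd} (hx : PreU t v x)
    (hy : PreU t v y) : |x.a - y.a| ≤ ((18432 : ℕ) : ℤ) := by
  obtain ⟨hx1, hx2, hx3, hx4⟩ := hx
  obtain ⟨hy1, hy2, hy3, hy4⟩ := hy
  have hj : x.j = y.j := by omega
  rw [abs_sub_comm] at hx3 hy3
  rw [hj] at hx3
  have h3 := slope_near hx3 hy3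
  have h4 : 2 * (2 * B v.j) * (q y.j : ℝ) ≤ 18432 := by
    rw [hy2, q_cast]
    unfold B
    have h1 : (1 : ℝ) ≤ v.j := by exact_mod_cast hv.1
    have h2 : (8 : ℝ) ^ (v.j + 1) = 8 ^ v.j * 8 := by ring
    rw [h2]
    push_cast
    have e : 2 * (2 * (8 / (8 ^ v.j * ((v.j : ℝ) + 1) ^ 2))) *
        (32 * (8 ^ v.j * 8) * ((v.j : ℝ) + 1 + 1) ^ 2) =
        8192 * ((v.j : ℝ) + 1 + 1) ^ 2 / ((v.j : ℝ) + 1) ^ 2 := by
      field_simp
      ring
    rw [e, div_le_iff₀ (by positivity)]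
    nlinarith
  have h5 : |(x.a : ℝ) - y.a| ≤ 18432 := h3.trans h4
  have h6 : |x.a - y.a| ≤ 18432 := by exact_mod_cast h5
  simpa using h6

theorem gap_i {t : ℕ → ℤ → ℤ} {v x y : Rd} (hj : x.j = y.j) (ha : x.a = y.a) (hb : x.b = y.b) :
    gap t v x = gap t v y := by
  unfold gap
  rw [hj, ha, hb]

theorem t_DEGUP : S_DEGUP := by
  refine ⟨(2 * 18432 + 1) + (2 * 18432 + 1), ?_⟩
  intro t v hv
  refine cnt_union _
    {v' | PreU t v v' ∧ v'.i = ⌊(N v'.j : ℝ) * (v.x * rt (sl v'.j v'.a) + 1 - gap t v v')⌋}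
    {v' | PreU t v v' ∧ v'.i = ⌈(N v'.j : ℝ) * (v.x * rt (sl v'.j v'.a) - 1 + gap t v v')⌉}
    _ _ ?_ ?_ ?_
  · rintro v' ⟨hv', h1, h2, h3, h4, h5 | h5⟩
    · exact Or.inl ⟨⟨h1, h2, h3, h4⟩, h5⟩
    · exact Or.inr ⟨⟨h1, h2, h3, h4⟩, h5⟩
  · refine cnt_inj _ (fun x => x.a) 18432 (fun x hx y hy => preU_a hv hx.1 hy.1) ?_
    intro x hx y hy ha
    have hb := preU_b hv hx.1 hy.1 ha
    have hj : x.j = y.j := by
      have h1 := hx.1.2.1
      have h2 := hy.1.2.1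
      omega
    have hh : x.h = y.h := hx.1.1.trans hy.1.1.symm
    have hi : x.i = y.i := by
      rw [hx.2, hy.2, gap_i hj ha hb, hj]
      have ha' : x.a = y.a := ha
      rw [ha']
    cases x
    cases y
    simp only at hh hj ha hb hi
    subst hh hj ha hb hi
    rfl
  · refine cnt_inj _ (fun x => x.a) 18432 (fun x hx y hy => preU_a hv hx.1 hy.1) ?_
    intro x hx y hy ha
    have hb := preU_b hv hx.1 hy.1 ha
    have hj : x.j = y.j := by
      have h1 := hx.1.2.1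
      have h2 := hy.1.2.1
      omega
    have hh : x.h = y.h := hx.1.1.trans hy.1.1.symm
    have hi : x.i = y.i := by
      rw [hx.2, hy.2, gap_i hj ha hb, hj]
      have ha' : x.a = y.a := ha
      rw [ha']
    cases x
    cases y
    simp only at hh hj ha hb hi
    subst hh hj ha hb hi
    rfl

theorem t_DEG (hu : S_DEGUP) (hd : S_DEGDN) : S_DEG := by
  obtain ⟨D1, h1⟩ := hu
  obtain ⟨D2, h2⟩ := hd
  refine ⟨(2 + 2) + (D1 + D2), ?_⟩
  intro t v
  by_cases hv : v.Ok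
  swap
  · have : {v' : Rd | Adj t v v'} = ∅ := by
      ext v'
      simp only [Set.mem_ofPred_eq, Set.mem_empty_iff_false, iff_false]
      exact fun h => hv h.1
    rw [this]
    exact ⟨Set.finite_empty, by simp⟩
  have hpair : ∀ x y : Rd, ({x, y} : Set Rd).Finite ∧ ({x, y} : Set Rd).ncard ≤ 2 := by
    intro x y
    refine ⟨Set.toFinite _, (Set.ncard_insert_le _ _).trans ?_⟩
    rw [Set.ncard_singleton]
  refine cnt_union _
    (({⟨v.h, v.j, v.a, v.b, v.i + N v.j⟩, ⟨v.h, v.j, v.a, v.b, v.i + N v.j - 1⟩} : Set Rd) ∪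
      {⟨v.h, v.j, v.a, v.b, v.i - N v.j⟩, ⟨v.h, v.j, v.a, v.b, v.i - N v.j + 1⟩})
    ({v' | v'.Ok ∧ Swi t v v'} ∪ {v' | v'.Ok ∧ Swi t v' v}) _ _ ?_
    (cnt_union _ _ _ _ _ subset_rfl (hpair _ _) (hpair _ _))
    (cnt_union _ _ _ _ _ subset_rfl (h1 t v hv) (h2 t v hv))
  rintro v' ⟨-, hv', h | h | h | h⟩
  · left
    left
    obtain ⟨e1, e2, e3, e4, e5⟩ := h
    cases v'
    simp only at e1 e2 e3 e4 e5
    subst e1 e2 e3 e4
    rcases e5 with e5 | e5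
    · subst e5
      exact Or.inl rfl
    · subst e5
      exact Or.inr rfl
  · left
    right
    obtain ⟨e1, e2, e3, e4, e5⟩ := h
    cases v'
    rename_i h' j' a' b' i'
    simp only at e1 e2 e3 e4 e5
    rw [e1, e2, e3, e4]
    rcases e5 with e5 | e5
    · left
      have : v.i - N j' = i' := by omega
      rw [this]
    · right
      have : v.i - N j' + 1 = i' := by omega
      rw [this]
      rfl
  · exact Or.inr (Or.inl ⟨hv', h⟩)
  · exact Or.inr (Or.inr ⟨hv', h⟩)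

end Pool.Agent.Y405.KZ
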